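import Pool.Agent.W_448fs_h63.SF

/-! Shifted diagrams in which only the first rows reach the window: the alternating sum
(MP_448cb3_co, block B1). -/

namespace Pool.Agent.GaussPoset.Yg

set_option linter.unusedSectionVars false

open Finset Polynomial

section inv

variable {A : Type*} [Ring A]

/-- coefficients of the inverse of the product `∏ (1 + z g x)`, `x < b` -/
def IS (g : ℕ → A) : ℕ → ℕ → A
  | 0, _ => 1
  | _ + 1, 0 => 0
  | r + 1, b + 1 => IS g (r + 1) b - IS g r b * g b

lemma IS_zero (g : ℕ → A) (b : ℕ) : IS g 0 b = 1 := by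
  cases b <;> rfl

lemma IS_succ_zero (g : ℕ → A) (r : ℕ) : IS g (r + 1) 0 = 0 := rfl

lemma IS_succ (g : ℕ → A) (r b : ℕ) : IS g (r + 1) (b + 1) = IS g (r + 1) b - IS g r b * g b := rfl

/-- the first factor can be removed -/
lemma SS_tail (g : ℕ → A) (h0 : g 0 * g 0 = 0) : ∀ b r : ℕ,
    SS (fun x => g (x + 1)) (r + 1) b = SS g (r + 1) (b + 1) - SS g r (b + 1) * g 0 := by
  intro b
  induction b with
  | zero =>
    intro r
    rw [SS_succ_zero, SS_succ, SS_succ_zero, zero_add]
    cases r with
    | zero => rw [SS_zero, SS_zero]; simp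
    | succ r =>
      rw [SS_succ_zero, SS_succ, SS_succ_zero]
      cases r with
      | zero => rw [SS_zero, mul_zero, zero_add, mul_one, h0, sub_zero]
      | succ r => rw [SS_succ_zero]; simp
  | succ b ih =>
    intro r
    rw [SS_succ, SS_succ g r (b + 1), ih r]
    cases r with
    | zero => rw [SS_zero, SS_zero, SS_zero]; noncomm_ring
    | succ r =>
      rw [ih r, SS_succ g r (b + 1)]
      noncomm_ring

/-- sums over the labels `≥ T` from the sums over all labels -/
lemma SS_from (g : ℕ → A) (h0 : ∀ x, g x * g x = 0) : ∀ T b r : ℕ,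
    SS (fun x => g (T + x)) r b = ∑ c ∈ range (r + 1), SS g c (T + b) * IS g (r - c) T := by
  intro T
  induction T with
  | zero =>
    intro b r
    simp only [Nat.zero_add]
    rw [sum_range_succ, Nat.sub_self, IS_zero, mul_one, sum_eq_zero, zero_add]
    intro c hc
    rw [mem_range] at hc
    rw [show r - c = (r - c - 1) + 1 by omega, IS_succ_zero, mul_zero]
  | succ T ih =>
    intro b r
    cases r with
    | zero => rw [sum_range_one, SS_zero, SS_zero, IS_zero, mul_one]
    | succ r =>
      have h1 := SS_tail (fun x => g (T + x)) (h0 _) b r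
      have h2 : (fun x => (fun x => g (T + x)) (x + 1)) = fun x => g (T + 1 + x) := by
        funext x
        simp only
        congr 1
        ring
      rw [h2] at h1
      rw [h1, ih, ih, sum_range_succ, sum_range_succ _ (r + 1), Nat.sub_self, IS_zero, IS_zero,
        sum_mul, show T + (b + 1) = T + 1 + b by ring, add_sub_right_comm, Nat.add_zero,
        ← sum_sub_distrib]
      congr 1
      refine sum_congr rfl fun c hc => ?_
      rw [mem_range] at hc
      rw [show r + 1 - c = (r - c) + 1 by omega, IS_succ]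
      noncomm_ring

variable {K : Type*} [Field K] [Algebra K A] {B : Submodule K A}

lemma SS_pow_mem {g : ℕ → A} : ∀ b r : ℕ, (∀ x < b, g x ∈ B) → SS g r b ∈ B ^ r := by
  intro b
  induction b with
  | zero =>
    intro r _
    cases r with
    | zero => rw [SS_zero, pow_zero]; exact Submodule.one_le.1 le_rfl
    | succ r => rw [SS_succ_zero]; exact Submodule.zero_mem _
  | succ b ih =>
    intro r h
    cases r with
    | zero => rw [SS_zero, pow_zero]; exact Submodule.one_le.1 le_rfl
    | succ r =>
      rw [SS_succ]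
      refine Submodule.add_mem _ (ih _ fun x hx => h x (by omega)) ?_
      rw [pow_succ']
      exact Submodule.mul_mem_mul (h b (by omega)) (ih _ fun x hx => h x (by omega))

lemma IS_pow_mem {g : ℕ → A} : ∀ b r : ℕ, (∀ x < b, g x ∈ B) → IS g r b ∈ B ^ r := by
  intro b
  induction b with
  | zero =>
    intro r _
    cases r with
    | zero => rw [IS_zero, pow_zero]; exact Submodule.one_le.1 le_rfl
    | succ r => rw [IS_succ_zero]; exact Submodule.zero_mem _
  | succ b ih =>
    intro r h
    cases r with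
    | zero => rw [IS_zero, pow_zero]; exact Submodule.one_le.1 le_rfl
    | succ r =>
      rw [IS_succ]
      refine Submodule.sub_mem _ (ih _ fun x hx => h x (by omega)) ?_
      rw [pow_succ]
      exact Submodule.mul_mem_mul (ih _ fun x hx => h x (by omega)) (h b (by omega))

end inv

section bad

variable {K : Type*} [Field K] {n : ℕ}

/-- vectors with vanishing coordinates `a < g` -/
def bsub (K : Type*) [Field K] (n g : ℕ) : Submodule K (Fin n → K) where
  carrier := {v | ∀ a : Fin n, (a : ℕ) < g → v a = 0}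
  add_mem' := by
    intro v w hv hw a ha
    rw [Pi.add_apply, hv a ha, hw a ha, add_zero]
  zero_mem' := fun _ _ => rfl
  smul_mem' := by
    intro c v hv a ha
    rw [Pi.smul_apply, hv a ha, smul_zero]

/-- their images in the exterior algebra -/
noncomputable def Bd (K : Type*) [Field K] (n g : ℕ) : Submodule K (ExteriorAlgebra K (Fin n → K)) :=
  (bsub K n g).map (ExteriorAlgebra.ι K)

lemma finrank_bsub {g : ℕ} (hg : g ≤ n) : Module.finrank K (bsub K n g) ≤ n - g := by
  -- restriction to the last coordinates is injective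
  let f : bsub K n g →ₗ[K] (Fin (n - g) → K) :=
    { toFun := fun v k => (v : Fin n → K) ⟨g + k, by omega⟩
      map_add' := fun _ _ => rfl
      map_smul' := fun _ _ => rfl }
  have hf : Function.Injective f := by
    intro v w hvw
    apply Subtype.ext
    funext a
    by_cases ha : (a : ℕ) < g
    · rw [v.2 a ha, w.2 a ha]
    · have h1 := congrFun hvw ⟨(a : ℕ) - g, by omega⟩
      have h2 : (⟨g + ((a : ℕ) - g), by omega⟩ : Fin n) = a := Fin.ext (by simp only; omega)
      change (v : Fin n → K) ⟨g + ((a : ℕ) - g), by omega⟩ =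
        (w : Fin n → K) ⟨g + ((a : ℕ) - g), by omega⟩ at h1
      rwa [h2] at h1
  have h1 := LinearMap.finrank_le_finrank_of_injective hf
  rwa [Module.finrank_fin_fun] at h1

/-- products of too many vectors vanish -/
lemma Bd_pow {g k : ℕ} (hg : g ≤ n) (hk : n - g < k) : Bd K n g ^ k = ⊥ := by
  have h1 : Bd K n g = Submodule.span K ((ExteriorAlgebra.ι K) '' (bsub K n g : Set (Fin n → K))) := by
    rw [Submodule.span_image, Submodule.span_eq]
    rfl
  rw [h1, Submodule.span_pow, Submodule.span_eq_bot]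
  intro x hx
  obtain ⟨f, rfl⟩ := Set.mem_pow.1 hx
  have h2 : ∀ i : Fin k, ∃ v ∈ bsub K n g, ExteriorAlgebra.ι K v = (f i : ExteriorAlgebra K (Fin n → K)) :=
    fun i => (f i).2
  choose v hv hv2 using h2
  have h3 : (List.ofFn fun i => ((f i : ExteriorAlgebra K (Fin n → K)))).prod =
      ExteriorAlgebra.ιMulti K k v := by
    rw [ExteriorAlgebra.ιMulti_apply]
    congr 2
    funext i
    rw [hv2]
  rw [h3]
  refine AlternatingMap.map_linearDependent _ v fun hli => ?_
  have h4 : LinearIndependent K (fun i => (⟨v i, hv i⟩ : bsub K n g)) :=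
    LinearIndependent.of_comp (bsub K n g).subtype hli
  have h5 := h4.fintype_card_le_finrank
  rw [Fintype.card_fin] at h5
  have := finrank_bsub (K := K) hg
  omega

end bad

section part

variable {K : Type*} [Field K] [CharZero K] {n : ℕ} {q : K}
variable (hq0 : q ≠ 0) (hq : ∀ j : ℕ, 1 - q ^ (j + 1) ≠ 0)

include hq0 hq in
lemma rowP_GF' {i a k x l : ℕ} (hc : n - 1 - a ≤ l) (ha : a < n) (hl : l + (i + 1) = n + x) :
    GF q (k + 1) (n - 1 - a) l = (rowP q i a k).eval (q ^ x) := by
  rw [GF_succ, if_pos (by omega), rowP_eval]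
  have hne : ∏ u ∈ range k, (1 - q ^ (u + 1)) ≠ 0 := prod_ne_zero_iff.2 fun u _ => hq u
  have h3 := qb_prod q (l - (n - 1 - a) + k) k
  have h4 : ∏ u ∈ range k, (1 - q ^ (l - (n - 1 - a) + k - u)) =
      ∏ u ∈ range k, (1 - q ^ ((a : ℤ) + u + 1 - i) * q ^ x) := by
    rw [← prod_range_reflect]
    refine prod_congr rfl fun u hu => ?_
    rw [mem_range] at hu
    rw [← zpow_natCast q x, ← zpow_add₀ hq0, ← zpow_natCast q (l - (n - 1 - a) + k - _)]
    congr 2
    omega
  rw [h4] at h3
  rw [prod_mul_distrib, prod_inv_distrib, ← h3, mul_comm (qb _ _ _), inv_mul_cancel_left₀ hne]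

include hq0 hq in
/-- the sum over all labels as a function of the window variable, only the rows `a < g` reach the
window -/
theorem SS_part {i g : ℕ} {lam : Fin n → ℕ} (hgn : g ≤ n) (hgi : g ≤ i + 1) (h1 : ∀ a, 1 ≤ lam a)
    (h2 : ∀ a : Fin n, (a : ℕ) < g → i + 1 ≤ a + lam a) :
    ∃ F ∈ GS q (ExteriorAlgebra K (Fin n → K)) ((g + 1) / 2),
      ∀ m, SS (io (fv q lam)) n (m + n) = F (m + i + 1) := by
  obtain ⟨t, ht⟩ : ∃ t, n = t + g := ⟨n - g, by omega⟩
  obtain ⟨s, hs⟩ : ∃ s, i + 1 = s + g := ⟨i + 1 - g, by omega⟩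
  set κ : K := q ^ t * (q ^ s)⁻¹ with hκ
  -- the labels `≥ t`
  have e1 : (fun y => io (fv q lam) (t + y)) = fun y => κ • io (gv q i lam) (s + y) := by
    funext y
    unfold io
    rw [← map_smul]
    congr 1
    funext a
    rw [Pi.smul_apply, smul_eq_mul]
    unfold fv gv
    have h3 := h1 a
    obtain ⟨k, hk⟩ : ∃ k, lam a = k + 1 := ⟨lam a - 1, by omega⟩
    have h4 : GF q (lam a) (n - 1 - a) (t + y) = (rowP q i a (lam a - 1)).eval (q ^ (s + y)) := by
      rw [hk, Nat.add_sub_cancel]
      by_cases hag : (a : ℕ) < g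
      · have h5 := h2 a hag
        exact rowP_GF hq0 hq (i := i) (x := s + y) (l := t + y) a.2 (by omega) (by omega)
      · exact rowP_GF' hq0 hq (i := i) (x := s + y) (l := t + y) (by omega) a.2 (by omega)
    rw [h4, hκ, pow_add, pow_add q s y]
    have h6 : q ^ s ≠ 0 := pow_ne_zero _ hq0
    field_simp
  -- small labels are bad
  have e2 : ∀ l < t, io (fv q lam) l ∈ Bd K n g := by
    intro l hl
    unfold io Bd
    refine Submodule.mem_map_of_mem ?_
    intro a ha
    unfold fv
    rw [GF_lt q _ _ _ (by omega), mul_zero]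
  have e3 : ∀ x < s, io (gv q i lam) x ∈ Bd K n g := by
    intro x hx
    unfold io Bd
    refine Submodule.mem_map_of_mem ?_
    intro a ha
    unfold gv
    have h5 := h2 a ha
    have h6 := h1 a
    rw [rowP_zero hq0 (by omega) (by omega), mul_zero]
  refine ⟨∑ c ∈ range (n + 1), ∑ c' ∈ range (c + 1), κ ^ c • (SS (io (gv q i lam)) c' *
      (fun _ => IS (io (gv q i lam)) (c - c') s * SS (io (fv q lam)) (n - c) t)), ?_, fun m => ?_⟩
  · refine Submodule.sum_mem _ fun c hc => Submodule.sum_mem _ fun c' hc' => ?_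
    rw [mem_range] at hc hc'
    refine Submodule.smul_mem _ _ ?_
    by_cases hg : g ≤ c'
    · have h3 := SS_mem hq (io_anti (gv q i lam)) (io_sq _) (gv_mem q i lam) c'
      have h4 : SS (io (gv q i lam)) c' ∈ GS q (ExteriorAlgebra K (Fin n → K)) ((g + 1) / 2) :=
        GS_mono (by omega) h3
      have h5 := GS_mul h4 (GS_const (q := q)
        (IS (io (gv q i lam)) (c - c') s * SS (io (fv q lam)) (n - c) t))
      rw [Nat.add_zero] at h5
      exact h5
    · have h3 : IS (io (gv q i lam)) (c - c') s * SS (io (fv q lam)) (n - c) t = 0 := by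
        have h4 : IS (io (gv q i lam)) (c - c') s * SS (io (fv q lam)) (n - c) t ∈
            Bd K n g ^ (n - c') := by
          rw [show n - c' = (c - c') + (n - c) by omega, pow_add]
          exact Submodule.mul_mem_mul (IS_pow_mem _ _ e3) (SS_pow_mem _ _ e2)
        rw [Bd_pow hgn (by omega)] at h4
        exact (Submodule.mem_bot K).1 h4
      rw [h3]
      have h6 : (SS (io (gv q i lam)) c' * fun _ : ℕ => (0 : ExteriorAlgebra K (Fin n → K))) = 0 := by
        funext b
        rw [Pi.mul_apply, mul_zero]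
        rfl
      rw [h6]
      exact Submodule.zero_mem _
  · rw [show m + n = t + (m + g) by omega, SS_add, e1, Finset.sum_apply]
    refine sum_congr rfl fun c hc => ?_
    rw [SS_smul, Finset.sum_apply, SS_from _ (io_sq _), smul_sum, sum_mul]
    refine sum_congr rfl fun c' hc' => ?_
    rw [Pi.smul_apply, Pi.mul_apply, show s + (m + g) = m + i + 1 by omega, smul_mul_assoc, mul_assoc]

include hq0 hq in
/-- the alternating sum as a polynomial in the window variable, only the rows `a < g` reach the
window -/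
theorem Psi_dvd_part {i g : ℕ} {lam : Fin n → ℕ} (hgn : g ≤ n) (hgi : g ≤ i + 1)
    (h1 : ∀ a, 1 ≤ lam a) (h2 : ∀ a : Fin n, (a : ℕ) < g → i + 1 ≤ a + lam a) :
    ∃ P : K[X], ∀ m, Psi q n m lam =
      (1 - q ^ (m + i + 1)) ^ ((g + 1) / 2) * P.eval (q ^ (m + i + 1)) := by
  obtain ⟨F, hF, hF2⟩ := SS_part hq0 hq hgn hgi h1 h2
  obtain ⟨P, hP⟩ := GS_apply (vol K n) hF
  exact ⟨P, fun m => by rw [Psi_vol, hF2, hP]⟩

end part

end Pool.Agent.GaussPoset.Yg
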