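import Pool.Agent.W_448b1_h24.BB
import Pool.Agent.W_448fw_h5.FwS

/-! Component data of stair-like components with a smaller base cell (MP_448cb3_co, block B1). -/

namespace Pool.Agent.GaussPoset

set_option linter.unusedSectionVars false

open Polynomial Finset

universe u

variable {P : Type u} [Fintype P] [PartialOrder P] [DecidableEq P]

section Cells

variable {ι : Type*} {R : Finset P} {cp : P → ι} {k : ι} {S : ℕ × ℕ → Prop} {co : P → ℕ × ℕ}
  {i b α β : ℕ} {θ : P → ℕ} {B : P → Prop} {J1 J2 : P → Prop} {x1 x2 : P}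

/-- shifted shapes with junk below the end of the first row -/
theorem compDataJ_shifted_cellg {g : ℕ} (hgi : i ≤ 2 * g + 1) (hgr : GradedBelow P) (hcp : ∀ x y, x ≤ y → x ∉ R → cp x = cp y)
    (h1 : Junk R cp k J1 x1)
    (hx1 : x1 ∉ R ∧ cp x1 = k ∧ ¬ J1 x1)
    (H : CoordJ R cp k J1 (fun c => c.1 ≤ c.2) co)
    (hr1 : (∃ x, J1 x) → (co x1).1 = 0 ∧
      ∀ y, y ∉ R → cp y = k → ¬ J1 y → y ≠ x1 → (co y).2 < (co x1).2)
    (hB : ∀ x, x ∉ R → cp x = k → (B x ↔ ¬ J1 x ∧ co x = (g, i)))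
    (hcell : ∃ x, x ∉ R ∧ cp x = k ∧ ¬ J1 x ∧ co x = (g, i))
    (hθ : ∀ x, x ∉ R → cp x = k → ¬ J1 x →
      θ x = ((co x).1 - g) + ((co x).2 - i))
    (hθJ : ∀ x, J1 x → θ x = lev x - i) :
    CompData R cp k i ((g + 2) / 2) θ B := by
  have hsimp : (fun x => J1 x ∨ J1 x) = J1 := by funext x; simp
  refine compDataJ_cells (J1 := J1) (J2 := J1) (x1 := x1) (x2 := x1) (S := fun c => c.1 ≤ c.2)
    (co := co) (α := g) (β := i) hgr hcp h1 h1 (by rw [hsimp]; exact H) ?_ ?_ ?_ ?_ ?_ ?_ ?_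
  · intro x hx hk
    rw [or_self]
    exact hB x hx hk
  · intro x hx hk
    rw [or_self]
    exact hθ x hx hk
  · intro x
    rw [or_self]
    exact hθJ x
  · intro x hx hk hJ
    rw [or_self] at hJ
    have := H.mem x hx hk hJ
    omega
  · intro hex
    rw [hθ x1 hx1.1 hx1.2.1 hx1.2.2, H.lev x1 hx1.1 hx1.2.1 hx1.2.2, (hr1 hex).1]
    omega
  · intro hex
    rw [hθ x1 hx1.1 hx1.2.1 hx1.2.2, H.lev x1 hx1.1 hx1.2.1 hx1.2.2, (hr1 hex).1]
    omega
  · intro D hD hdec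
    classical
    have hR : ∀ x : {x : P // x ∉ D}, (x : P) ∉ R := fun x h => x.2 (hD.2.1 h)
    obtain ⟨z, hzD, hzk, hzJ, hzc⟩ := CoordJ.base_not_mem H hB hD hcell
    obtain ⟨w1, hw1, -, hh1, hrr1⟩ := junk_end (J' := J1) h1 ⟨hx1.1, hx1.2.1, hx1.2.2, hx1.2.2⟩ hD
      (f := fun x => (co x).2) (g := fun x => (co x).1)
      (fun h => ⟨(hr1 h).1, fun y hy hyk hJ _ hne => (hr1 h).2 y hy hyk hJ hne⟩)
      ⟨⟨z, hzD⟩, hzk⟩ hzJ hzJ
    refine shift_junk_dvd_cellg (Q := {x : {x : P // x ∉ D} // cp (x : P) = k})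
      (fun x => J1 x.1.1) (fun x => co x.1.1) w1 hw1
      (fun x y hxy hy => h1.low _ _ hxy (hR _) hy) hh1 ?_ ?_ ?_ ?_ (fun h => ?_) ?_
    · intro x y hx hy hxy
      exact Subtype.ext (Subtype.ext (H.inj _ _ (hR _) (hR _) x.2 y.2 hx hy hxy))
    · intro x hx
      exact H.mem _ (hR _) x.2 hx
    · intro x y hx hy
      exact H.le_iff _ _ (hR _) (hR _) x.2 y.2 hx hy
    · intro x hx c hc hS
      obtain ⟨y, hy, hyk, hyJ, hcy⟩ := H.low _ (hR x.1) x.2 hx c hc hS
      have hyD : y ∉ D := by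
        intro h
        refine x.1.2 (hD.1 _ y ?_ h)
        rw [H.le_iff _ y (hR _) hy x.2 hyk hx hyJ, hcy]
        exact hc
      exact ⟨⟨⟨y, hyD⟩, hyk⟩, hyJ, hcy⟩
    · obtain ⟨h3, h4⟩ := hrr1 h
      exact ⟨h3, fun y hy hne => h4 y hy hy hne⟩
    · exact ⟨⟨⟨z, hzD⟩, hzk⟩, hzJ, hzc⟩

end Cells

section Stair

variable {t : Tops P} {N : Finset P} {co : P → ℕ × ℕ} {i : ℕ}

open Classical in
/-- the distance function with the base cell `(g, i)` -/
noncomputable def thSg (g i : ℕ) (N : Finset P) (co : P → ℕ × ℕ) : P → ℕ := fun x =>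
  if x ∈ junk (fun c => c.1 ≤ c.2) N co then lev x - i else
    ((co x).1 - g) + ((co x).2 - i)

/-- natural set of a stair-like component at window `i` -/
theorem natTop_stair_cellg (hgr : GradedBelow P) (C : Chart (t : P) (fun c => c.1 ≤ c.2) N co)
    {g : ℕ} (hg : 1 ≤ g) (hgi : i ≤ 2 * g + 1) (hcell : ∃ x ∈ N, co x = (g, i))
    (hlow : ∀ x, x ≤ (t : P) → lev x ≤ i → x ∈ N) :
    NatTop i t ((g + 2) / 2) (natS N co) (thSg g i N co)
      (fun x => x ∈ N ∧ co x = (g, i)) where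
  up := natS_up C.up
  le_t := natS_le C.le_t
  low := fun x hx hxi => mem_natS.mpr (Or.inl (hlow x hx hxi))
  data := by
    intro M HM hM θ' B' hθ hB
    obtain ⟨x0, hx0, hcx0⟩ := hcell
    have h1 : ∃ y ∈ N, 1 ≤ (co y).1 := ⟨x0, hx0, by rw [hcx0]; simp only; omega⟩
    have hmem : ∀ x, x ∉ unnat M → topOf x = t → x ∈ natS N co := fun x h1 h2 => by
      rw [← hM]; exact HM.mem_iff.mpr ⟨h1, h2⟩
    have hmem' : ∀ x, x ∈ natS N co → x ∉ unnat M ∧ topOf x = t := fun x h => by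
      rw [← hM] at h; exact HM.mem_iff.mp h
    obtain ⟨x1, J1, hx1, hr1⟩ := junk_data (S := fun c : ℕ × ℕ => c.1 ≤ c.2) (fun c hc => hc) C h1
      HM (J' := fun _ => False) (fun x => by rw [hM, mem_natS, or_false])
      (fun _ _ _ h => h.elim) (fun _ h => h.elim) (fun h => h)
    have hnJ : ∀ x, x ∉ unnat M → topOf x = t → x ∉ junk (fun c => c.1 ≤ c.2) N co → x ∈ N := by
      intro x hx hk hJ
      rcases mem_natS.mp (hmem x hx hk) with h | h
      · exact h
      · exact absurd h hJ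
    have hNM : ∀ x ∈ N, x ∉ unnat M ∧ topOf x = t := fun x hx =>
      hmem' x (mem_natS.mpr (Or.inl hx))
    have hbase : ∀ x ∈ N, co x = (g, i) → x ∉ junk (fun c => c.1 ≤ c.2) N co := by
      intro x hx hc h
      obtain ⟨w, Hw, hxw⟩ := mem_junk.mp h
      have := (Hw.tail C hx (mem_jset.mp hxw).1).1
      rw [hc] at this
      simp only at this
      omega
    have H : CoordJ (unnat M) topOf t (fun x => x ∈ junk (fun c => c.1 ≤ c.2) N co)
        (fun c => c.1 ≤ c.2) co := by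
      constructor
      · intro x y hx hy hkx hky hJx hJy h
        exact C.inj x (hnJ x hx hkx hJx) y (hnJ y hy hky hJy) h
      · intro x y hx hy hkx hky hJx hJy
        exact C.le_iff x (hnJ x hx hkx hJx) y (hnJ y hy hky hJy)
      · intro x hx hk hJx
        exact C.mem x (hnJ x hx hk hJx)
      · intro x hx hk hJx c hc hS
        have hxN := hnJ x hx hk hJx
        obtain ⟨y, hy, hcy⟩ := C.low x hxN c hc hS
        refine ⟨y, (hNM y hy).1, (hNM y hy).2, ?_, hcy⟩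
        have hxy : x ≤ y := by
          rw [C.le_iff x hxN y hy, hcy]
          exact hc
        intro h
        obtain ⟨w, Hw, hyw⟩ := mem_junk.mp h
        exact hJx (mem_junk.mpr ⟨w, Hw, (Hw.tail C hxN (hxy.trans_lt (mem_jset.mp hyw).1)).2⟩)
      · intro x hx hk hJx
        exact C.lev x (hnJ x hx hk hJx)
    refine compDataJ_shifted_cellg hgi hgr HM.cp J1 ⟨hx1.1, hx1.2.1, hx1.2.2.1⟩ H ?_ ?_ ?_ ?_ ?_
    · intro hex
      obtain ⟨h3, h4⟩ := hr1 hex
      exact ⟨h3, fun y hy hk hJ hne => h4 y hy hk hJ (fun h => h) hne⟩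
    · intro x hx hk
      rw [hB x (hmem x hx hk)]
      constructor
      · rintro ⟨h3, h4⟩
        exact ⟨hbase x h3 h4, h4⟩
      · rintro ⟨h3, h4⟩
        exact ⟨hnJ x hx hk h3, h4⟩
    · exact ⟨x0, (hNM x0 hx0).1, (hNM x0 hx0).2, hbase x0 hx0 hcx0, hcx0⟩
    · intro x hx hk hJ
      rw [hθ x (hmem x hx hk)]
      unfold thSg
      rw [if_neg hJ]
    · intro x hJ
      rw [hθ x (mem_natS.mpr (Or.inr hJ))]
      unfold thSg
      rw [if_pos hJ]

/-- stair-like components with a smaller base cell -/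
theorem StairNat.natTop_cellg {j : ℕ} {i g : ℕ} (hgr : GradedBelow P)
    (R : StairNat j i t N co) (hg : 1 ≤ g) (hgi : i ≤ 2 * g + 1) (hg2 : g ≤ 2 * (i / 2))
    (hij : i ≤ j) :
    NatTop i t ((g + 2) / 2) (natS N co) (thSg g i N co)
      (fun x => x ∈ N ∧ co x = (g, i)) := by
  refine natTop_stair_cellg hgr R.chart hg hgi ?_ (low_of_strip R.strip hij)
  obtain ⟨x, hx, hc⟩ := R.cell
  obtain ⟨y, hy, hcy⟩ := R.chart.low x hx (g, i) (by rw [hc]; exact ⟨hg2, le_rfl⟩)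
    (show g ≤ i by omega)
  exact ⟨y, hy, hcy⟩

/-- stair-like components, two rows less: the order `i / 2` -/
theorem StairNat.natTop_less {j : ℕ} {i : ℕ} (hgr : GradedBelow P)
    (R : StairNat j i t N co) (hi : 4 ≤ i) (hij : i ≤ j) :
    NatTop i t (i / 2) (natS N co) (thSg (2 * (i / 2) - 2) i N co)
      (fun x => x ∈ N ∧ co x = (2 * (i / 2) - 2, i)) := by
  have h := R.natTop_cellg hgr (g := 2 * (i / 2) - 2) (by omega) (by omega) (by omega) hij
  rwa [show (2 * (i / 2) - 2 + 2) / 2 = i / 2 by omega] at h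

end Stair

end Pool.Agent.GaussPoset
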